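import Pool.Agent.helper96.DP.SpecE
import Pool.Agent.helper96.DP.Basic

/-!
# Project dp, module FA: free arms and the events `two`, `four`
-/

set_option autoImplicit false

namespace DP

theorem FA_reg_true (x : V) (m n : ℕ) (k : Bool) :
    HS true x n \ (Dfree true x m).N k = ann x m n := by
  ext v
  simp only [HS, Dfree, if_true, box, ann, Set.mem_diff, Set.mem_setOf_eq, not_lt]
  exact and_comm

theorem FA_reg_false (x : V) (m n : ℕ) (k : Bool) :
    HS false x m \ (Dfree false x n).N k = ann x m n := by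
  ext v
  simp [HS, Dfree, ann]

/-- the four entries -/
def FA_u (a b d e : V) : ℕ → V
  | 0 => a
  | 1 => b
  | 2 => d
  | _ => e

theorem FA_kol0 : kol 0 = true := rfl
theorem FA_kol1 : kol 1 = false := rfl
theorem FA_kol2 : kol 2 = true := rfl
theorem FA_kol3 : kol 3 = false := rfl

/-- outer circle -/
theorem FA_out (hFO : FO_stmt) (hOF : OF_stmt) (c : V → Bool) (j : ℕ) (x : V) (m n : ℕ)
    (hj : j = 2 ∨ j = 4) (hx : Even (x.1 + x.2)) (hm : 1 ≤ m) (hmn : m < n) :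
    Fam c j true x n (Dfree true x m) ↔ ar j c x m n := by
  unfold Fam
  simp only [FA_reg_true]
  show (∃ u : ℕ → V, Ord j x n u ∧ ∀ i < j, u i ∈ bd x n ∧ ∃ p ∈ bd x m,
    Conn c (kol i) (ann x m n) p (u i)) ↔ _
  rcases hj with rfl | rfl
  · unfold ar
    rw [if_neg (by norm_num)]
    constructor
    · rintro ⟨u, -, hu⟩
      obtain ⟨h1, p, hp, hpu⟩ := hu 0 (by norm_num)
      obtain ⟨h2, q, hq, hqu⟩ := hu 1 (by norm_num)
      exact ⟨⟨p, hp, _, h1, hpu⟩, ⟨q, hq, _, h2, hqu⟩⟩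
    · rintro ⟨⟨p, hp, u, hu, hpu⟩, ⟨q, hq, v, hv, hqv⟩⟩
      refine ⟨FA_u u v u v, ?_, ?_⟩
      · unfold Ord
        rw [if_neg (by norm_num)]
        show u ≠ v
        rintro rfl
        have h1 := hpu.colour_right
        rw [hqv.colour_right] at h1
        exact absurd h1 (by decide)
      · intro i hi
        interval_cases i
        · exact ⟨hu, p, hp, hpu⟩
        · exact ⟨hv, q, hq, hqv⟩
  · unfold ar
    rw [if_pos rfl]
    constructor
    · rintro ⟨u, hO, hu⟩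
      unfold Ord at hO
      rw [if_pos rfl] at hO
      obtain ⟨h0, p0, hp0, c0⟩ := hu 0 (by norm_num)
      obtain ⟨h1, p1, hp1, c1⟩ := hu 1 (by norm_num)
      obtain ⟨h2, p2, hp2, c2⟩ := hu 2 (by norm_num)
      obtain ⟨h3, p3, hp3, c3⟩ := hu 3 (by norm_num)
      rw [FA_kol0] at c0
      rw [FA_kol1] at c1
      rw [FA_kol2] at c2
      rw [FA_kol3] at c3
      have e0 : c (u 0) = true := c0.colour_right
      have e1 : c (u 1) = false := c1.colour_right
      have e2 : c (u 2) = true := c2.colour_right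
      have e3 : c (u 3) = false := c3.colour_right
      have hn := hOF c true x m n hx hm hmn (u 0) (u 1) (u 2) (u 3) hO e0 e1 e2 e3
        ⟨h0, p0, hp0, by rw [e0]; exact c0.symm⟩ ⟨h1, p1, hp1, by rw [e1]; exact c1.symm⟩
        ⟨h2, p2, hp2, by rw [e2]; exact c2.symm⟩ ⟨h3, p3, hp3, by rw [e3]; exact c3.symm⟩
      refine ⟨p0, hp0, p2, hp2, ⟨_, h0, c0⟩, ⟨_, h2, c2⟩, ?_⟩
      intro h
      exact hn ((c0.symm.trans h).trans c2)
    · intro h4
      obtain ⟨u1, u2, u3, u4, hO, e1, e2, e3, e4, ⟨h1, p1, hp1, c1⟩, ⟨h2, p2, hp2, c2⟩,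
        ⟨h3, p3, hp3, c3⟩, ⟨h4', p4, hp4, c4⟩⟩ := hFO c x m n hx hm hmn h4
      rw [e1] at c1
      rw [e2] at c2
      rw [e3] at c3
      rw [e4] at c4
      refine ⟨FA_u u1 u2 u3 u4, ?_, ?_⟩
      · unfold Ord
        rw [if_pos rfl]
        exact hO
      · intro i hi
        interval_cases i
        · exact ⟨h1, p1, hp1, c1.symm⟩
        · exact ⟨h2, p2, hp2, c2.symm⟩
        · exact ⟨h3, p3, hp3, c3.symm⟩
        · exact ⟨h4', p4, hp4, c4.symm⟩

/-- inner circle -/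
theorem FA_in (hFI : FI_stmt) (hIF : IF_stmt) (c : V → Bool) (j : ℕ) (x : V) (m n : ℕ)
    (hj : j = 2 ∨ j = 4) (hx : Even (x.1 + x.2)) (hm : 1 ≤ m) (hmn : m < n) :
    Fam c j false x m (Dfree false x n) ↔ ar j c x m n := by
  unfold Fam
  simp only [FA_reg_false]
  show (∃ u : ℕ → V, Ord j x m u ∧ ∀ i < j, u i ∈ bd x m ∧ ∃ p ∈ bd x n,
    Conn c (kol i) (ann x m n) p (u i)) ↔ _
  rcases hj with rfl | rfl
  · unfold ar
    rw [if_neg (by norm_num)]
    constructor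
    · rintro ⟨u, -, hu⟩
      obtain ⟨h1, p, hp, hpu⟩ := hu 0 (by norm_num)
      obtain ⟨h2, q, hq, hqu⟩ := hu 1 (by norm_num)
      exact ⟨⟨_, h1, p, hp, hpu.symm⟩, ⟨_, h2, q, hq, hqu.symm⟩⟩
    · rintro ⟨⟨u, hu, p, hp, hpu⟩, ⟨v, hv, q, hq, hqv⟩⟩
      refine ⟨FA_u u v u v, ?_, ?_⟩
      · unfold Ord
        rw [if_neg (by norm_num)]
        show u ≠ v
        rintro rfl
        have h1 := hpu.colour_left
        rw [hqv.colour_left] at h1
        exact absurd h1 (by decide)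
      · intro i hi
        interval_cases i
        · exact ⟨hu, p, hp, hpu.symm⟩
        · exact ⟨hv, q, hq, hqv.symm⟩
  · unfold ar
    rw [if_pos rfl]
    constructor
    · rintro ⟨u, hO, hu⟩
      unfold Ord at hO
      rw [if_pos rfl] at hO
      obtain ⟨h0, p0, hp0, c0⟩ := hu 0 (by norm_num)
      obtain ⟨h1, p1, hp1, c1⟩ := hu 1 (by norm_num)
      obtain ⟨h2, p2, hp2, c2⟩ := hu 2 (by norm_num)
      obtain ⟨h3, p3, hp3, c3⟩ := hu 3 (by norm_num)
      rw [FA_kol0] at c0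
      rw [FA_kol1] at c1
      rw [FA_kol2] at c2
      rw [FA_kol3] at c3
      have e0 : c (u 0) = true := c0.colour_right
      have e1 : c (u 1) = false := c1.colour_right
      have e2 : c (u 2) = true := c2.colour_right
      have e3 : c (u 3) = false := c3.colour_right
      have hn := hIF c true x m n hx hm hmn (u 0) (u 1) (u 2) (u 3) hO e0 e1 e2 e3
        ⟨h0, p0, hp0, by rw [e0]; exact c0.symm⟩ ⟨h1, p1, hp1, by rw [e1]; exact c1.symm⟩
        ⟨h2, p2, hp2, by rw [e2]; exact c2.symm⟩ ⟨h3, p3, hp3, by rw [e3]; exact c3.symm⟩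
      exact ⟨u 0, h0, u 2, h2, ⟨p0, hp0, c0.symm⟩, ⟨p2, hp2, c2.symm⟩, hn⟩
    · intro h4
      obtain ⟨u1, u2, u3, u4, hO, e1, e2, e3, e4, ⟨h1, p1, hp1, c1⟩, ⟨h2, p2, hp2, c2⟩,
        ⟨h3, p3, hp3, c3⟩, ⟨h4', p4, hp4, c4⟩⟩ := hFI c x m n hx hm hmn h4
      rw [e1] at c1
      rw [e2] at c2
      rw [e3] at c3
      rw [e4] at c4
      refine ⟨FA_u u1 u2 u3 u4, ?_, ?_⟩
      · unfold Ord
        rw [if_pos rfl]
        exact hO
      · intro i hi
        interval_cases i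
        · exact ⟨h1, p1, hp1, c1.symm⟩
        · exact ⟨h2, p2, hp2, c2.symm⟩
        · exact ⟨h3, p3, hp3, c3.symm⟩
        · exact ⟨h4', p4, hp4, c4.symm⟩

theorem FA (hFI : FI_stmt) (hFO : FO_stmt) (hIF : IF_stmt) (hOF : OF_stmt) : FA_stmt :=
  fun c j x m n hj hx hm hmn =>
    ⟨FA_out hFO hOF c j x m n hj hx hm hmn, FA_in hFI hIF c j x m n hj hx hm hmn⟩

end DP
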