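import Pool.Agent.helper61.DP.SpecC

/-!
# Project dp, module RR4: the probabilistic step of the argument of Bollobas and Riordan
-/

set_option autoImplicit false

namespace DP

open MeasureTheory Set

theorem RR4_meas {F : Set (V → Bool)} {A : Set V} (h : Loc F A) : MeasurableSet F := by
  classical
  obtain ⟨Λ, _, h2⟩ := h
  have h1 : F = Λ.restrict ⁻¹'
      {x : Λ → Bool | (fun v => if h : v ∈ Λ then x ⟨v, h⟩ else false) ∈ F} := by
    ext b
    simp only [Set.mem_preimage, Set.mem_setOf_eq]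
    apply h2
    intro v hv
    rw [dif_pos (Finset.mem_coe.1 hv)]
    rfl
  rw [h1]
  exact Finset.measurable_restrict Λ (Set.toFinite _).measurableSet

theorem RR4_rect_finite (a b d e : ℤ) : (rect a b d e).Finite := by
  refine Set.Finite.subset (((Finset.Icc a b) ×ˢ (Finset.Icc d e) : Finset V).finite_toSet) ?_
  intro v hv
  simp only [Finset.coe_product, Finset.coe_Icc, Set.mem_prod, Set.mem_Icc]
  exact ⟨⟨hv.1, hv.2.1⟩, hv.2.2.1, hv.2.2.2⟩

theorem RR4_RV_subset (c : V → Bool) (a h : ℤ) : RV c a h ⊆ rect 0 a 0 h := fun _ hv => hv.1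

/-- the exploration reveals `X` and finds a vertical crossing -/
def RR4_V (a h : ℤ) (X : Set V) : Set (V → Bool) :=
  Ev fun c => RV c a h = X ∧ ∃ u t : V, u.2 = 0 ∧ t.2 = h ∧ Conn c true X u t

theorem RR4_V_loc (h1 : RR1_stmt) {a h : ℤ} (ha : 0 ≤ a) (hh : 0 ≤ h) (X : Finset V) :
    Loc (RR4_V a h X) (X : Set V) := by
  refine Loc.ev X.finite_toSet ?_
  have key : ∀ c c' : V → Bool, (∀ v ∈ (X : Set V), c v = c' v) →
      (RV c a h = X ∧ ∃ u t : V, u.2 = 0 ∧ t.2 = h ∧ Conn c true X u t) →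
      (RV c' a h = X ∧ ∃ u t : V, u.2 = 0 ∧ t.2 = h ∧ Conn c' true X u t) := by
    rintro c c' hc ⟨hR, u, t, hu, ht, hut⟩
    refine ⟨?_, u, t, hu, ht, (Conn.congr hc).1 hut⟩
    rw [h1 c c' a h ha hh (by rw [hR]; exact hc), hR]
  intro c c' hc
  exact ⟨key c c' hc, key c' c fun v hv => (hc v hv).symm⟩

theorem RR4_F_loc (X : Set V) (b h : ℤ) :
    Loc (Ev fun c => FX c X b h) (rect 0 b 0 (2 * h) ∩ Xᶜ) := by
  refine Loc.ev ((RR4_rect_finite _ _ _ _).inter_of_left _) ?_
  intro c c' hc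
  unfold FX
  have : ∀ w y : V, Conn c true {z | z ∈ rect 0 b 0 (2 * h) ∧ z ∉ X ∧ rf h z ∉ X} w y ↔
      Conn c' true {z | z ∈ rect 0 b 0 (2 * h) ∧ z ∉ X ∧ rf h z ∉ X} w y := by
    intro w y
    exact Conn.congr fun v hv => hc v ⟨hv.1, hv.2.1⟩
  simp only [this]

/-- reflection as an equivalence -/
def RR4_rfE (h : ℤ) : V ≃ V where
  toFun := rf h
  invFun := rf h
  left_inv v := by simp [rf]
  right_inv v := by simp [rf]

theorem RR4_half (h3 : RR3_stmt) (hS : RSY_stmt) (c : V → Bool) {a b h : ℤ} (ha : 0 ≤ a)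
    (hab : a ≤ b) (hh : 0 ≤ h) :
    ph true 0 b 0 (2 * h) / 2 ≤ Pr (Ev fun c' => FX c' (RV c a h) b h) := by
  haveI : IsProbabilityMeasure P1 := by unfold P1; infer_instance
  set X := RV c a h with hX
  have hsub : (Ev fun c' => hcross c' true 0 b 0 (2 * h)) ⊆
      (Ev fun c' => FX c' X b h) ∪ (Ev fun c' => FX (fun v => c' (rf h v)) X b h) := by
    intro b' hb'
    exact h3 c (col b') a b h ha hab hh hb'
  have hsym : Pr (Ev fun c' => FX (fun v => c' (rf h v)) X b h) = Pr (Ev fun c' => FX c' X b h) := by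
    refine hS.1 (RR4_rfE h) (fun c' => FX c' X b h) _ (RR4_F_loc X b h) ?_
    intro v
    constructor
    · unfold prm
      show (v.1 % 2 = 0 ∧ (2 * h - v.2) % 2 = 0) ↔ _
      omega
    · unfold dul
      show (v.1 % 2 = 1 ∧ (2 * h - v.2) % 2 = 1) ↔ _
      omega
  have h4 : Pr (Ev fun c' => hcross c' true 0 b 0 (2 * h)) ≤
      Pr (Ev fun c' => FX c' X b h) + Pr (Ev fun c' => FX (fun v => c' (rf h v)) X b h) := by
    unfold Pr
    exact (measureReal_mono hsub (measure_ne_top _ _)).trans (measureReal_union_le _ _)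
  rw [hsym] at h4
  unfold ph
  linarith

theorem RR4 (h1 : RR1_stmt) (h2 : RR2_stmt) (h3 : RR3_stmt) (h5 : RR5_stmt) (hS : RSY_stmt)
    (hI : Bindep_stmt) (hM : Bmarg_stmt) : RR4_stmt := by
  classical
  haveI : IsProbabilityMeasure P1 := by unfold P1; infer_instance
  intro a b h ha hab hh
  set Λ : Finset V := (RR4_rect_finite 0 a 0 h).toFinset with hΛ
  set F : Finset V → Set (V → Bool) := fun X => Ev fun c => FX c (X : Set V) b h with hF
  set W : Finset V → Set (V → Bool) := fun X => RR4_V a h X with hW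
  have hWloc : ∀ X, Loc (W X) (X : Set V) := fun X => RR4_V_loc h1 ha hh X
  have hFloc : ∀ X, Loc (F X) (rect 0 b 0 (2 * h) ∩ (X : Set V)ᶜ) := fun X => RR4_F_loc _ b h
  -- independence
  have hind : ∀ X, Pr (W X ∩ F X) = Pr (W X) * Pr (F X) := by
    intro X
    have hd : Disjoint (X : Set V) (rect 0 b 0 (2 * h) ∩ (X : Set V)ᶜ) := by
      rw [Set.disjoint_left]
      intro v hv hv'
      exact hv'.2 hv
    have e := hI (fun _ => 0) (W X) Set.univ (F X) Set.univ _ _ hd (hWloc X) (Loc.univ _)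
      (hFloc X) (Loc.univ _)
    rw [Set.univ_inter, hM _ _ _ ((hWloc X).inter (hFloc X)), hM _ _ _ (hWloc X),
      hM _ _ _ (hFloc X)] at e
    exact e
  -- lower bound
  have hlow : ∀ X, Pr (W X) * (ph true 0 b 0 (2 * h) / 2) ≤ Pr (W X ∩ F X) := by
    intro X
    rw [hind]
    by_cases hne : (W X).Nonempty
    · obtain ⟨c0, hc0⟩ := hne
      have hR : RV (col c0) a h = X := hc0.1
      have := RR4_half h3 hS (col c0) ha hab hh
      rw [hR] at this
      exact mul_le_mul_of_nonneg_left this measureReal_nonneg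
    · rw [Set.not_nonempty_iff_eq_empty] at hne
      rw [hne]
      simp [Pr]
  -- cover
  have hcov : (Ev fun c => vcross c true 0 a 0 h) ⊆ ⋃ X ∈ Λ.powerset, W X := by
    intro b' hb'
    obtain ⟨u, t, hu, ht, hut⟩ := h5 (col b') a h ha hh hb'
    have hfin : (RV (col b') a h).Finite := (RR4_rect_finite 0 a 0 h).subset (RR4_RV_subset _ _ _)
    rw [Set.mem_iUnion₂]
    refine ⟨hfin.toFinset, ?_, ?_⟩
    · rw [Finset.mem_powerset]
      intro v hv
      rw [Set.Finite.mem_toFinset] at hv ⊢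
      exact RR4_RV_subset _ _ _ hv
    · refine ⟨by simp, u, t, hu, ht, ?_⟩
      simpa using hut
  have hpv : pv true 0 a 0 h ≤ ∑ X ∈ Λ.powerset, Pr (W X) := by
    unfold pv Pr
    exact (measureReal_mono hcov (measure_ne_top _ _)).trans
      (measureReal_biUnion_finset_le _ _)
  have hdisj : ∀ X ∈ Λ.powerset, ∀ Y ∈ Λ.powerset, X ≠ Y → Disjoint (W X ∩ F X) (W Y ∩ F Y) := by
    intro X _ Y _ hXY
    rw [Set.disjoint_left]
    intro c hc hc'
    apply hXY
    have e1 : RV (col c) a h = X := hc.1.1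
    have e2 : RV (col c) a h = Y := hc'.1.1
    exact Finset.coe_injective (e1.symm.trans e2)
  have hsum : ∑ X ∈ Λ.powerset, Pr (W X ∩ F X) = Pr (⋃ X ∈ Λ.powerset, (W X ∩ F X)) := by
    unfold Pr
    rw [measureReal_biUnion_finset]
    · exact fun X hX Y hY hXY => hdisj X hX Y hY hXY
    · intro X _
      exact RR4_meas ((hWloc X).inter (hFloc X))
  have hincl : (⋃ X ∈ Λ.powerset, (W X ∩ F X)) ⊆ Ev fun c => EV c a b h := by
    intro c hc
    rw [Set.mem_iUnion₂] at hc
    obtain ⟨X, _, hc1, hc2⟩ := hc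
    obtain ⟨hR, u, t, hu, ht, hut⟩ := hc1
    have hv : vcross (col c) true 0 a 0 h := by
      refine ⟨u, t, hu, ht, hut.mono ?_⟩
      rw [← hR]
      exact RR4_RV_subset _ _ _
    refine h2 (col c) a b h ha hab hh hv ?_
    rw [hR]
    exact hc2
  calc pv true 0 a 0 h * (ph true 0 b 0 (2 * h) / 2)
      ≤ (∑ X ∈ Λ.powerset, Pr (W X)) * (ph true 0 b 0 (2 * h) / 2) := by
        refine mul_le_mul_of_nonneg_right hpv ?_
        have : 0 ≤ ph true 0 b 0 (2 * h) := measureReal_nonneg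
        linarith
    _ = ∑ X ∈ Λ.powerset, Pr (W X) * (ph true 0 b 0 (2 * h) / 2) := by rw [Finset.sum_mul]
    _ ≤ ∑ X ∈ Λ.powerset, Pr (W X ∩ F X) := Finset.sum_le_sum fun X _ => hlow X
    _ = Pr (⋃ X ∈ Λ.powerset, (W X ∩ F X)) := hsum
    _ ≤ Pr (Ev fun c => EV c a b h) := measureReal_mono hincl (measure_ne_top _ _)

end DP
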